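import Pool.Agent.H16.ORS.W

/-!
# ORS, row NAM: names by counting
-/

open Finset
open Pool.ORB (Ad pre str Wo Enu Acc Tr inl al un pair)

namespace Pool.ORS

private theorem nam_pow (S : ℕ → ℕ) (i : ℕ) : ∃ K, ∀ k ≤ i, S k < 2 ^ K := by
  refine ⟨∑ k ∈ range (i + 1), S k, fun k hk => ?_⟩
  have h1 : S k ≤ ∑ k ∈ range (i + 1), S k :=
    Finset.single_le_sum (f := S) (fun _ _ => Nat.zero_le _) (by rw [Finset.mem_range]; omega)
  exact lt_of_le_of_lt h1 Nat.lt_two_pow_self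

private theorem nam_find (ℓℓ : ℕ → ℕ) (h0 : ℓℓ 0 = 0) (h1 : ∀ k, ℓℓ k < ℓℓ (k + 1)) {L : ℕ}
    (hL : 0 < L) : ∃ k, ℓℓ k < L ∧ L ≤ ℓℓ (k + 1) := by
  have h2 : ∀ k, k ≤ ℓℓ k := by
    intro k
    induction k with
    | zero => exact Nat.zero_le _
    | succ k ih => exact Nat.succ_le_of_lt (lt_of_le_of_lt ih (h1 k))
  have h3 : ∃ k, L ≤ ℓℓ k := ⟨L, h2 L⟩
  classical
  obtain ⟨j, hj⟩ : ∃ j, Nat.find h3 = j + 1 := by
    refine ⟨Nat.find h3 - 1, ?_⟩
    have h4 : Nat.find h3 ≠ 0 := by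
      intro h5
      have h6 := Nat.find_spec h3
      rw [h5, h0] at h6
      omega
    omega
  refine ⟨j, ?_, ?_⟩
  · have h7 := Nat.find_min h3 (m := j) (by omega)
    omega
  · have h8 := Nat.find_spec h3
    rw [hj] at h8
    exact h8

/-- NAM. -/
theorem nam_row (h : STRStmt) : NAMStmt := by
  obtain ⟨-, -, hpair, -, -, hlevs⟩ := h
  intro f en ω nn ℓℓ S B h0 h1 h2 i
  obtain ⟨K, hK⟩ := nam_pow S i
  refine ⟨K, fun m => ?_⟩
  by_contra hcon
  have hcon' : ∀ a : List Bool, a.length = nam f m K →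
      ∃ x : List Bool, x.length = m ∧ Wrong en ω (i + 1, pair x a) := by
    intro a ha
    by_contra h3
    refine hcon ⟨a, ha, fun x hx hw => h3 ⟨x, hx, hw⟩⟩
  have hLpos : 0 < levs en f i m K := by
    unfold levs
    omega
  obtain ⟨k, hk1, hk2⟩ := nam_find ℓℓ h0 (fun k => (h1 k).1) hLpos
  have h4 : ∀ a : List.Vector Bool (nam f m K), ∃ x : List Bool, x.length = m ∧
      nn k < levs en f i m K ∧ ((i + 1, pair x a.1) : Ad) ∈ B k := by
    intro a
    obtain ⟨x, hx, hw⟩ := hcon' a.1 a.2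
    have h5 := hlevs en f i m K x a.1 hx a.2
    have h6 := h2 k (i + 1, pair x a.1) (by rw [h5]; exact hk1) (by rw [h5]; exact hk2) hw
    rw [h5] at h6
    exact ⟨x, hx, h6⟩
  choose g hg1 hg2 hg3 using h4
  have h7 : 2 ^ nam f m K ≤ (B k).card := by
    have h8 : (univ : Finset (List.Vector Bool (nam f m K))).card ≤ (B k).card := by
      refine Finset.card_le_card_of_injOn (fun a => ((i + 1, pair (g a) a.1) : Ad))
        (fun a _ => Finset.mem_coe.2 (hg3 a)) ?_
      intro a _ b _ hab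
      have h9 : pair (g a) a.1 = pair (g b) b.1 := (Prod.mk.inj hab).2
      exact Subtype.ext (hpair _ _ _ _ h9).2
    rwa [Finset.card_univ, card_vector, Fintype.card_bool] at h8
  have h10 := h7.trans (h1 k).2.2
  have h11 : nn k < levs en f i m K := hg2 ⟨List.replicate (nam f m K) true, by simp⟩
  rcases Nat.lt_or_ge i k with hik | hik
  · have h12 := (h1 k).2.1 i hik m K h11
    omega
  · have h13 := hK k hik
    have h14 : 2 ^ K ≤ 2 ^ nam f m K := Nat.pow_le_pow_right (by norm_num) (by unfold nam; omega)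
    omega

end Pool.ORS
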